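import Pool.Agent.W574.MO.Cone

set_option autoImplicit false

/-! # Local topological zeta functions of the hypersurfaces `∑ y_j f_j(x₀, x₁, x₂) = 0`

Here the `f_j` are forms of the same degree `d` in the three variables `x₀, x₁, x₂`, and the `y_j`
are further variables: `F = univ f = ∑ y_j f_j(x₀, x₁, x₂)`, a germ at the origin.

The local topological zeta function of `F` at the origin is `Z_{I,0} / (s + 1)`, where `Z_{I,0}` is
the local topological zeta function of the ideal `I = (f_j)` at the origin of `ℂ ^ 3`: if `Y → ℂ ^ 3` is
a log resolution of `I`, then `Y × ℂ ^ ι` is an embedded resolution of `F = 0`, with one more component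
`H` with the numbers `(1, 1)`, and all the points over the origin are in `H`. Further
`Z_{I,0} = Z_J / (d s + 3)`, where `Z_J` comes from the ideal sheaf `J` which the `f_j` define on the
exceptional divisor `P ^ 2` of the blow-up of the origin, by blowing up points. So it is of the form
`ConeFormZeta` (in `Pool.Agent.W574.CN.Defs`, there for the global zeta function, which is the same,
because the other strata have the Euler characteristic `0`); see also `ConeZeta`, `PlaneZeta`.

The proof is in the starting library `Pool.Agent.W574`: `algebraic_of_local` and `global_of_local` (as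
`F` is homogeneous, a functional equation of `F` with formal power series coefficients gives one
with polynomial coefficients, with the same `b`) and `cone_form_main`. -/

namespace Pool.Agent.Results.MP_6163c8_ag.ConeFormsLocal

open MvPolynomial Pool.Agent.W574.MO Pool.Agent.W574.CN Pool.Agent.W574.HS Pool.Agent.H628R4.TP

/-- Let `f_j` be forms of the same degree `d > 0` in three variables, not all zero, let `b` be a
polynomial which satisfies a functional equation `b(s) F ^ s = P(s) F ^ (s + 1)` with a
differential operator `P(s)` with formal power series coefficients at the origin (in particular the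
local Bernstein-Sato polynomial of `F = ∑ y_j f_j` at the origin), and let `Z` be the local
topological zeta function of `F` at the origin. Then every pole `s₀` of `Z` is a root of `b`,
provided that `s₀ ≠ -3/d` or that three of the `f_j` have a nonzero Jacobian determinant (are
algebraically independent). -/
theorem result {ι : Type} [Fintype ι] (f : ι → MvPolynomial (Fin 3) ℂ) (d : ℕ) (hd : 0 < d)
    (hf : ∀ j, (f j).IsHomogeneous d) (hf0 : ∃ j, f j ≠ 0)
    (b : Polynomial ℂ) (hb : IsLocalBFunction (univ f) b) (Z : RatFunc ℂ)
    (hZ : ConeFormZeta f d Z) (s₀ : ℂ) (hs₀ : Z.denom.eval s₀ = 0)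
    (h : s₀ ≠ -3 / d ∨ ∃ e : Fin 3 → ι, (Matrix.of fun s t => pderiv s (f (e t))).det ≠ 0) :
    b.eval s₀ = 0 := by
  classical
  exact cone_form_main f d hd hf hf0 b (bfun_of_local f d hf hf0 b hb) Z hZ s₀ hs₀ h

end Pool.Agent.Results.MP_6163c8_ag.ConeFormsLocal
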